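import Pool.Agent.helper48.AGR.Spec

/-!
# Project AG, row T2 (totality of the range)
-/

set_option autoImplicit false

namespace Pool.Agent.AGR

open Monoid Function

/-- **T2**. -/
theorem T2 (hFT : FT_stmt) (hVGA : VGA_stmt) (hCNT : CNT_stmt) : T2_stmt := by
  intro S
  have hqp : S.q.comp S.v = S.p.comp S.v := MonoidHom.ext fun a => (S.hv a).symm
  obtain ⟨h1, h2⟩ := hFT S.Γ S.X S.v S.p S.q S.hp S.hq S.hv
  have hvg : VG ((inl : S.X →* Am S.q S.p).comp (S.p.comp S.v)) := by
    have h := hVGA S.X S.X S.Γ S.q S.p S.v S.hq S.hp (by rw [hqp]; exact S.vg) S.vg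
    rwa [hqp] at h
  have hc : Countable (Am S.q S.p) := hCNT S.X S.X S.Γ S.q S.p
  let T : Sys :=
    { X := Am S.q S.p
      Γ := S.X
      gX := inferInstance
      gΓ := inferInstance
      cX := hc
      v := S.p.comp S.v
      p := inl
      q := inr
      hp := inl_injective S.hq S.hp
      hq := inr_injective S.hq S.hp
      hv := fun a => by
        change (inl (S.p (S.v a)) : Am S.q S.p) = inr (S.p (S.v a))
        rw [S.hv a, glue, S.hv a]
      vg := hvg
      e := fun i => inr (S.e i)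
      f := fun i => inl (S.f i)
      fe := h1 ℕ S.e S.fe
      ff := h2 ℕ S.f S.ff }
  let m : Mor S T :=
    { j := (inr : S.X →* Am S.q S.p)
      c := S.q
      hj := inr_injective S.hq S.hp
      jp := fun γ => glue γ
      jq := fun γ => rfl
      jv := fun a => (S.hv a).symm }
  exact ⟨T, m, fun x => ⟨x, rfl⟩, fun i => ⟨i, rfl⟩, fun i => ⟨i, S.f i, rfl, rfl⟩⟩

end Pool.Agent.AGR
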